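import Pool.Agent.H5.FR.Defs

/-!
# Project FRK (MP_f18ce0_lc): statements of the modules
-/

set_option autoImplicit false

namespace Pool.Agent.H5.FR

open Finset

/-- all prefix sums of the list, started at `D`, are bounded by `M` -/
def PB {ι : Type} (w : ι → ℤ) (M : ℝ) : ℤ → List ι → Prop
  | D, [] => |(D : ℝ)| ≤ M
  | D, f :: L => |(D : ℝ)| ≤ M ∧ PB w M (D + w f) L

/-- BRN: Bernstein bound for the random function `g`, counting form -/
def BRNStmt : Prop := ∀ (V : Type) [Fintype V] [DecidableEq V] (b : ℕ), 2 ≤ b →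
  ∀ (c : Finset V) (a : V → ℝ), (∀ v, |a v| ≤ 1) → ∀ (k : Fin b) (θ τ : ℝ), 0 ≤ θ → θ ≤ 1 →
    ((univ.filter (fun g : V → Fin b =>
      τ ≤ ∑ v ∈ c, a v * ((if g v = k then 1 else 0) - 1 / (b : ℝ)))).card : ℝ) ≤
      Real.exp (θ ^ 2 * c.card / b - θ * τ) * (Fintype.card (V → Fin b) : ℝ)

/-- CHB: Chebyshev bound for the sum of the squares of the colour sums of the parts -/
def CHBStmt : Prop := ∀ (V : Type) [Fintype V] [DecidableEq V] (b : ℕ), 6 ≤ b →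
  ∀ (χ : V → ℤ), (∀ v, χ v = 1 ∨ χ v = -1) → ∀ (c : Finset V),
    ((univ.filter (fun g : V → Fin b =>
      ∑ k, ((cs χ (part c g k) : ℤ) : ℝ) ^ 2 < (c.card : ℝ) / 2)).card : ℝ) ≤
      18 / (b : ℝ) * (Fintype.card (V → Fin b) : ℝ)

/-- OWN: a random distribution of a regular block is fine with probability at least `3/4` -/
def OWNStmt : Prop := ∀ (V : Type) [Fintype V] [DecidableEq V] (χ : V → ℤ),
  (∀ v, χ v = 1 ∨ χ v = -1) → ∀ (lam β r : ℕ), PH lam β r → ∀ (w : ℝ), 8 * (lam : ℝ) ≤ w →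
  ∀ (c : Finset V), Rng χ lam (w * β) c →
    (Nat.card {g : V → Fin (β ^ 2) // ¬ (Mass χ c g (lam * (w * β)) ∧
      ∀ k, Rng χ lam w (part c g k))} : ℝ) ≤ 1 / 4 * (Fintype.card (V → Fin (β ^ 2)) : ℝ)

/-- REC: a regular block is good with probability at least `1 - 1/(4 b)` -/
def RECStmt : Prop := ∀ (V : Type) [Fintype V] [DecidableEq V] (χ : V → ℤ),
  (∀ v, χ v = 1 ∨ χ v = -1) → ∀ (lam β r : ℕ), PH lam β r → ∀ (u₀ : ℝ), 8 * (lam : ℝ) ≤ u₀ →
  ∀ (h : ℕ) (c : Finset V), Rng χ lam (u₀ * (β : ℝ) ^ h) c →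
    (Nat.card {ω : Om V (β ^ 2) r h // ¬ Good χ lam β u₀ h (c, ω)} : ℝ) ≤
      1 / (4 * (β : ℝ) ^ 2) * (Nat.card (Om V (β ^ 2) r h) : ℝ)

/-- ROO: polynomially many random structures serve all colourings -/
def ROOStmt : Prop := ∀ (n : ℕ), 1 ≤ n → ∀ (lam β r : ℕ), PH lam β r → ∀ (u₀ : ℝ),
  8 * (lam : ℝ) ≤ u₀ → ∀ (h : ℕ), (u₀ * (β : ℝ) ^ h) ^ 2 = 2 * n →
    ∃ ω : Fin (2 * n) → Om (Fin (2 * n)) (β ^ 2) r h, ∀ Y : Finset (Fin (2 * n)), Y.card = n →
      ∃ j, Good (chi Y) lam β u₀ h (univ, ω j)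

/-- ORD: ordering of bounded weights with bounded prefix sums -/
def ORDStmt : Prop := ∀ (ι : Type) [DecidableEq ι] (F : Finset ι) (w : ι → ℤ) (M : ℝ) (D : ℤ),
  (∀ f ∈ F, |(w f : ℝ)| ≤ M) → |(D : ℝ)| ≤ M → |((D + ∑ f ∈ F, w f : ℤ) : ℝ)| ≤ M →
    ∃ L : List ι, L.Nodup ∧ L.toFinset = F ∧ PB w M D L

/-- TEX: existence and simple properties of admissible beginnings -/
def TEXStmt : Prop := ∀ (V : Type) [Fintype V] [DecidableEq V] (χ : V → ℤ),
  (∀ v, χ v = 1 ∨ χ v = -1) → ∀ (lam β r : ℕ), PH lam β r → ∀ (u₀ : ℝ), 8 * (lam : ℝ) ≤ u₀ →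
  ∀ (h : ℕ) (A : Blk V (β ^ 2) r h),
    (∀ D T, TS χ lam β u₀ h A D T → T ⊆ A.1 ∧ cs χ T = -D) ∧
    (Good χ lam β u₀ h A → TS χ lam β u₀ h A 0 ∅) ∧
    (Good χ lam β u₀ h A → ∀ D : ℤ, |(D : ℝ)| ≤ lam * (u₀ * (β : ℝ) ^ h) →
      ∃ T, TS χ lam β u₀ h A D T)

/-- SEG: the chain for two consecutive blocks -/
def SEGStmt : Prop := ∀ (V : Type) [Fintype V] [DecidableEq V] (χ : V → ℤ),
  (∀ v, χ v = 1 ∨ χ v = -1) → ∀ (lam β r : ℕ), PH lam β r → ∀ (u₀ : ℝ), 8 * (lam : ℝ) ≤ u₀ →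
  ∀ (M : ℕ), u₀ ^ 2 + lam * u₀ ≤ M → ∀ (h : ℕ) (A B : Blk V (β ^ 2) r h) (D : ℤ)
    (T T' : Finset V), Good χ lam β u₀ h A → TS χ lam β u₀ h A D T → Disjoint A.1 B.1 →
    ((Good χ lam β u₀ h B ∧ TS χ lam β u₀ h B (D + cs χ A.1) T') ∨
      (B.1 = ∅ ∧ D + cs χ A.1 = 0 ∧ T' = ∅)) →
    Reach χ (Fam M h A B) T (A.1 ∪ T')

/-- CNT: size of the family -/
def CNTStmt : Prop := ∀ (V : Type) [Fintype V] [DecidableEq V] (b r M h : ℕ)
  (A B : Blk V b r h),
    (Fam M h A B).card ≤ (r ^ 2 * 2 ^ (2 * b) * (2 * b) ^ 2) ^ h * 2 ^ (2 * M)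

/-- PAR: parameters exist -/
def PARStmt : Prop := ∃ lam β r : ℕ, PH lam β r

/-- FAM: balanced chains in a family of polynomial size -/
def FAMStmt : Prop := ∃ C : ℕ, ∀ n : ℕ, ∃ F : Finset (Finset (Fin (2 * n))),
  F.card ≤ (n + 2) ^ C ∧ ∀ Y : Finset (Fin (2 * n)), Y.card = n → Reach (chi Y) F ∅ univ

/-! ### Polynomials -/

/-- the polynomial of the paths from `∅` to `X` of length `j`: an edge from `X \ {x, y}` to `X` has
the label `w X x y * (x + y)` -/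
noncomputable def PP {K : Type} [CommRing K] {V : Type} [DecidableEq V] (F : Finset (Finset V))
    (w : Finset V → V → V → K) : ℕ → Finset V → MvPolynomial V K
  | 0, X => if X = ∅ then 1 else 0
  | j + 1, X => ∑ p ∈ (X ×ˢ X).filter (fun p => p.1 ≠ p.2 ∧ (X.erase p.1).erase p.2 ∈ F),
      MvPolynomial.C (w X p.1 p.2) * (MvPolynomial.X p.1 + MvPolynomial.X p.2) *
        PP F w j ((X.erase p.1).erase p.2)

/-- the partial derivative matrix of `f` for the partition `Y`, complement of `Y`: the entry at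
`(A, B)` is the coefficient of the multilinear monomial with the variables `A ∪ B` -/
noncomputable def pdm {K : Type} [CommRing K] {V : Type} (f : MvPolynomial V K) (Y : Finset V) :
    Matrix (Finset {x // x ∈ Y}) (Finset {x // x ∉ Y}) K :=
  fun A B => f.coeff (∑ a ∈ A, Finsupp.single a.1 1 + ∑ b ∈ B, Finsupp.single b.1 1)

/-- MLT: the polynomials are multilinear -/
def MLTStmt : Prop := ∀ (K : Type) [CommRing K] (V : Type) [DecidableEq V]
  (F : Finset (Finset V)) (w : Finset V → V → V → K) (j : ℕ) (X : Finset V) (i : V),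
    (PP F w j X).degreeOf i ≤ if i ∈ X then 1 else 0

/-- POL: if all balanced colourings have a chain then for suitable weights all partial derivative
matrices have full rank -/
def POLStmt : Prop := ∀ (K : Type) [Field K] [Infinite K] (n : ℕ)
  (F : Finset (Finset (Fin (2 * n)))),
    (∀ Y : Finset (Fin (2 * n)), Y.card = n → Reach (chi Y) F ∅ univ) →
    ∃ w : Finset (Fin (2 * n)) → Fin (2 * n) → Fin (2 * n) → K,
      ∀ Y : Finset (Fin (2 * n)), Y.card = n → (pdm (PP F w n univ) Y).rank = 2 ^ n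

open Pool.Agent.H80 in
/-- a circuit is syntactically multilinear: the two sub-circuits feeding a multiplication gate have
no variable in common -/
def SynMult {K : Type} {σ : Type} (D : Circuit K σ) : Prop :=
  ∀ g a b : D.V, D.gate g = Gate.mul a b → ∀ (i : σ) (s t : D.V), D.gate s = Gate.var i →
    D.gate t = Gate.var i → D.Path s a → ¬ D.Path t b

open Pool.Agent.H80 in
/-- CIR: the circuit -/
def CIRStmt : Prop := ∀ (K : Type) [Field K] (n : ℕ) (F : Finset (Finset (Fin (2 * n))))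
  (w : Finset (Fin (2 * n)) → Fin (2 * n) → Fin (2 * n) → K),
    ∃ D : Circuit K (Fin (2 * n)), D.WeaklySkew ∧ SynMult D ∧ D.Computes (PP F w n univ) ∧
      D.size ≤ 8 * (F.card + 1) * (2 * n + 1) ^ 2

end Pool.Agent.H5.FR
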