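import Pool.Agent.H5.FR.Stmts

/-!
# Project FRK, module ALL: full rank for balanced partitions implies full rank for all partitions
-/

set_option autoImplicit false

namespace Pool.Agent.H5.FR

open Finset

section

variable {K : Type} [Field K]

theorem rows_of_rank {m n : Type} [Fintype m] [Fintype n] [DecidableEq m] (M : Matrix m n K)
    (h : M.rank = Fintype.card m) : LinearIndependent K M.row := by
  rw [linearIndependent_iff_card_eq_finrank_span, ← h, Matrix.rank_eq_finrank_span_row]
  rfl

theorem rank_sub_rows {m n m' : Type} [Fintype m] [Fintype n] [Fintype m'] [DecidableEq m]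
    (M : Matrix m n K) (h : M.rank = Fintype.card m) (r : m' → m) (hr : Function.Injective r) :
    (M.submatrix r id).rank = Fintype.card m' := by
  have h1 := rows_of_rank M h
  have h2 := h1.comp r hr
  exact LinearIndependent.rank_matrix h2

/-- transfer of a finite set of elements of a subtype -/
def tr {V : Type} {P Q : V → Prop} (hPQ : ∀ x, P x → Q x) (A : Finset {x // P x}) :
    Finset {x // Q x} :=
  A.map ⟨fun x => ⟨x.1, hPQ x.1 x.2⟩, fun x y h => by
    simp only [Subtype.mk.injEq] at h
    exact Subtype.ext h⟩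

theorem tr_injective {V : Type} {P Q : V → Prop} (hPQ : ∀ x, P x → Q x) :
    Function.Injective (tr hPQ) := Finset.map_injective _

theorem sum_tr {V : Type} {P Q : V → Prop} (hPQ : ∀ x, P x → Q x) (A : Finset {x // P x})
    {M : Type} [AddCommMonoid M] (f : V → M) :
    ∑ a ∈ tr hPQ A, f a.1 = ∑ a ∈ A, f a.1 := by
  rw [tr, Finset.sum_map]
  rfl

theorem card_fs {V : Type} [Fintype V] (P : V → Prop) [DecidablePred P] :
    Fintype.card (Finset {x // P x}) = 2 ^ Fintype.card {x // P x} := Fintype.card_finset

theorem all_thm {n : ℕ} (f : MvPolynomial (Fin (2 * n)) K)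
    (h : ∀ Y : Finset (Fin (2 * n)), Y.card = n → (pdm f Y).rank = 2 ^ n)
    (Y : Finset (Fin (2 * n))) : (pdm f Y).rank = 2 ^ min Y.card (2 * n - Y.card) := by
  classical
  have hcY : ∀ Z : Finset (Fin (2 * n)), Fintype.card (Finset {x // x ∈ Z}) = 2 ^ Z.card := by
    intro Z; rw [Fintype.card_finset, Fintype.card_coe]
  have hcY' : ∀ Z : Finset (Fin (2 * n)), Fintype.card (Finset {x // x ∉ Z}) =
      2 ^ (2 * n - Z.card) := by
    intro Z
    rw [Fintype.card_finset]
    congr 1
    rw [Fintype.card_subtype_compl, Fintype.card_fin, Fintype.card_coe]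
  rcases le_total Y.card n with hle | hle
  · obtain ⟨Y', hYY', hY'⟩ := Finset.exists_superset_card_eq (s := Y) (n := n) hle
      (by rw [Fintype.card_fin]; omega)
    have hM := h Y' hY'
    have hr := rank_sub_rows (pdm f Y') (by rw [hM, hcY, hY']) (tr (fun x hx => hYY' hx))
      (tr_injective _)
    have e : (pdm f Y').submatrix (tr (fun x hx => hYY' hx)) id =
        (pdm f Y).submatrix id (tr (fun x (hx : x ∉ Y') hx' => hx (hYY' hx'))) := by
      ext A B
      simp only [Matrix.submatrix_apply, pdm, id]
      rw [sum_tr (fun x hx => hYY' hx) A (fun v => Finsupp.single v 1),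
        sum_tr (fun x (hx : x ∉ Y') hx' => hx (hYY' hx')) B (fun v => Finsupp.single v 1)]
    rw [e, hcY] at hr
    have h1 := Matrix.rank_submatrix_le (pdm f Y) id
      (tr (fun x (hx : x ∉ Y') hx' => hx (hYY' hx')))
    have h2 := Matrix.rank_le_card_height (pdm f Y)
    rw [hr] at h1
    rw [hcY] at h2
    have hmin : min Y.card (2 * n - Y.card) = Y.card := by omega
    rw [hmin]
    exact le_antisymm h2 h1
  · obtain ⟨Y', hYY', hY'⟩ := Finset.exists_subset_card_eq (s := Y) (n := n) hle
    have hM := h Y' hY'
    rw [← Matrix.rank_transpose] at hM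
    have hYc : Y.card ≤ 2 * n := by
      have := Finset.card_le_univ Y
      rwa [Fintype.card_fin] at this
    have hr := rank_sub_rows (pdm f Y').transpose (by
      rw [hM, hcY', hY']; congr 1; omega)
      (tr (fun x (hx : x ∉ Y) hx' => hx (hYY' hx'))) (tr_injective _)
    have e : ((pdm f Y').transpose.submatrix
        (tr (fun x (hx : x ∉ Y) hx' => hx (hYY' hx'))) id).transpose =
        (pdm f Y).submatrix (tr (fun x hx => hYY' hx)) id := by
      ext A B
      simp only [Matrix.submatrix_apply, Matrix.transpose_apply, pdm, id]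
      rw [sum_tr (fun x hx => hYY' hx) A (fun v => Finsupp.single v 1),
        sum_tr (fun x (hx : x ∉ Y) hx' => hx (hYY' hx')) B (fun v => Finsupp.single v 1)]
    rw [← Matrix.rank_transpose, e, hcY'] at hr
    have h1 := Matrix.rank_submatrix_le (pdm f Y) (tr (fun x hx => hYY' hx)) id
    have h2 := Matrix.rank_le_card_width (pdm f Y)
    rw [hr] at h1
    rw [hcY'] at h2
    have hmin : min Y.card (2 * n - Y.card) = 2 * n - Y.card := by omega
    rw [hmin]
    exact le_antisymm h2 h1

end

end Pool.Agent.H5.FR
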