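import Pool.Agent.H80.Circuit

/-!
# Project FRK (MP_f18ce0_lc): full rank polynomials with small multilinear weakly skew circuits

Definitions.  `V` is the set of variables, `χ : V → ℤ` a colouring with values `1` and `-1`,
`b = β ^ 2` the number of parts of a block, `r` the number of alternatives at each node, `u₀` the
unit of height `0`, `u₀ * β ^ h` the unit of height `h`.
-/

set_option autoImplicit false

namespace Pool.Agent.H5.FR

open Finset

/-- the random data of a node of height `h`: for each of the `r` alternatives a function which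
distributes the elements of the block to its `b` parts, and the data for the parts -/
def Om (V : Type) (b r : ℕ) : ℕ → Type
  | 0 => Unit
  | h + 1 => Fin r → ((V → Fin b) × Om V b r h)

/-- a block of height `h` together with its data -/
abbrev Blk (V : Type) (b r h : ℕ) : Type := Finset V × Om V b r h

section

variable {V : Type} [Fintype V] [DecidableEq V] {b r : ℕ}

noncomputable instance Om.fintype (V : Type) [Fintype V] (b r : ℕ) : (h : ℕ) → Fintype (Om V b r h)
  | 0 => inferInstanceAs (Fintype Unit)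
  | h + 1 => by
    classical
    have := Om.fintype V b r h
    exact inferInstanceAs (Fintype (Fin r → ((V → Fin b) × Om V b r h)))

instance Om.nonempty (V : Type) (b r : ℕ) [NeZero b] : (h : ℕ) → Nonempty (Om V b r h)
  | 0 => ⟨()⟩
  | h + 1 => by
    have := Om.nonempty V b r h
    exact inferInstanceAs (Nonempty (Fin r → ((V → Fin b) × Om V b r h)))

/-- sum of the colours -/
def cs (χ : V → ℤ) (c : Finset V) : ℤ := ∑ v ∈ c, χ v

/-- the part number `k` of `c` -/
def part (c : Finset V) (g : V → Fin b) (k : Fin b) : Finset V := c.filter (fun v => g v = k)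

/-- the sub-block number `k` of the block `A` in the alternative `i` -/
def sub {h : ℕ} (A : Blk V b r (h + 1)) (i : Fin r) (k : Fin b) : Blk V b r h :=
  (part A.1 (A.2 i).1 k, (A.2 i).2)

/-- the block `c` is regular at unit `w` -/
def Rng (χ : V → ℤ) (lam : ℕ) (w : ℝ) (c : Finset V) : Prop :=
  |(c.card : ℝ) - w ^ 2| ≤ lam * w ∧ |((cs χ c : ℤ) : ℝ)| ≤ lam * w

/-- both colours have total surplus more than `M` in the parts of `c` -/
def Mass (χ : V → ℤ) (c : Finset V) (g : V → Fin b) (M : ℝ) : Prop :=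
  M < ∑ k, max ((cs χ (part c g k) : ℤ) : ℝ) 0 ∧ M < ∑ k, max (-((cs χ (part c g k) : ℤ) : ℝ)) 0

/-- the block is good: it is regular and for some alternative the parts have enough surplus of both
colours and are good -/
def Good (χ : V → ℤ) (lam β : ℕ) (u₀ : ℝ) : (h : ℕ) → Blk V b r h → Prop
  | 0, A => Rng χ lam u₀ A.1
  | h + 1, A => Rng χ lam (u₀ * (β : ℝ) ^ (h + 1)) A.1 ∧ ∃ i : Fin r,
      Mass χ A.1 (A.2 i).1 (lam * (u₀ * (β : ℝ) ^ (h + 1))) ∧ ∀ k, Good χ lam β u₀ h (sub A i k)

/-- union of the sub-blocks in `S` -/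
def un {h : ℕ} (A : Blk V b r (h + 1)) (i : Fin r) (S : Finset (Fin b)) : Finset V :=
  S.biUnion (fun k => (sub A i k).1)

/-- `TS A D T`: `T` is an admissible beginning of the block `A`, with sum of colours `-D` -/
def TS (χ : V → ℤ) (lam β : ℕ) (u₀ : ℝ) : (h : ℕ) → Blk V b r h → ℤ → Finset V → Prop
  | 0, A, D, T => T ⊆ A.1 ∧ cs χ T = -D
  | h + 1, A, D, T => ∃ (i : Fin r) (S : Finset (Fin b)) (e : Fin b) (Te : Finset V), e ∉ S ∧
      (∀ k, Good χ lam β u₀ h (sub A i k)) ∧ T = un A i S ∪ Te ∧
      TS χ lam β u₀ h (sub A i e) (D + cs χ (un A i S)) Te ∧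
      |((D + cs χ (un A i S) : ℤ) : ℝ)| ≤ lam * (u₀ * (β : ℝ) ^ h) ∧
      |((D + cs χ (un A i S) + cs χ (sub A i e).1 : ℤ) : ℝ)| ≤ lam * (u₀ * (β : ℝ) ^ h)

/-- `Reach χ F X Y`: there is a chain from `X` to `Y` in `F`, each step adds one element of each
colour -/
inductive Reach (χ : V → ℤ) (F : Finset (Finset V)) : Finset V → Finset V → Prop
  | refl {X : Finset V} (h : X ∈ F) : Reach χ F X X
  | step {X Y : Finset V} {x y : V} (h : Reach χ F X Y) (hx : x ∉ Y) (hy : y ∉ Y)
      (cx : χ x = 1) (cy : χ y = -1) (hF : insert x (insert y Y) ∈ F) :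
      Reach χ F X (insert x (insert y Y))

/-- subsets of a small set -/
def pw (M : ℕ) (c : Finset V) : Finset (Finset V) := if c.card ≤ M then c.powerset else {∅}

/-- the sub-blocks of two blocks -/
def sel {h : ℕ} (A B : Blk V b r (h + 1)) (i j : Fin r) (t : Bool × Fin b) : Blk V b r h :=
  if t.1 then sub B j t.2 else sub A i t.2

/-- the family of all sets which may occur in the chain while the blocks `A`, `B` are active -/
noncomputable def Fam (M : ℕ) : (h : ℕ) → Blk V b r h → Blk V b r h → Finset (Finset V)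
  | 0, A, B => (pw M A.1 ×ˢ pw M B.1).image (fun p => p.1 ∪ p.2)
  | h + 1, A, B => (univ : Finset (Fin r × Fin r × Finset (Bool × Fin b) × (Bool × Fin b) ×
      (Bool × Fin b))).biUnion (fun p =>
        (Fam M h (sel A B p.1 p.2.1 p.2.2.2.1) (sel A B p.1 p.2.1 p.2.2.2.2)).image
          (fun Z => p.2.2.1.biUnion (fun t => (sel A B p.1 p.2.1 t).1) ∪ Z))

/-- the colouring given by a set -/
def chi (Y : Finset V) (v : V) : ℤ := if v ∈ Y then 1 else -1

end

/-- the conditions on the parameters -/
structure PH (lam β r : ℕ) : Prop where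
  lam_pos : 1 ≤ lam
  big : 12 * lam ^ 2 < β
  tail : 32 * (β : ℝ) ^ 2 * Real.exp (-((lam : ℝ) ^ 2 / 32)) ≤ 1
  alt : 4 * β ^ 2 ≤ 2 ^ r

end Pool.Agent.H5.FR
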