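import Pool.Agent.H5.FR.Stmts

/-!
# Project FRK: module OWN, a random distribution of a regular block is fine
-/

set_option autoImplicit false

namespace Pool.Agent.H5.FR

open Finset

theorem own_card {V : Type} [DecidableEq V] {b : ℕ} (c : Finset V) (g : V → Fin b)
    (k : Fin b) :
    ∑ v ∈ c, (1 : ℝ) * ((if g v = k then 1 else 0) - 1 / (b : ℝ)) =
      ((part c g k).card : ℝ) - (c.card : ℝ) / b := by
  simp only [one_mul, sum_sub_distrib, sum_const, nsmul_eq_mul, part]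
  rw [Finset.sum_boole]
  ring

theorem own_cs {V : Type} [DecidableEq V] {b : ℕ} (χ : V → ℤ) (c : Finset V) (g : V → Fin b)
    (k : Fin b) :
    ∑ v ∈ c, (χ v : ℝ) * ((if g v = k then 1 else 0) - 1 / (b : ℝ)) =
      ((cs χ (part c g k) : ℤ) : ℝ) - ((cs χ c : ℤ) : ℝ) / b := by
  simp only [mul_sub, sum_sub_distrib, cs, part, mul_ite, mul_one, mul_zero, Int.cast_sum]
  rw [Finset.sum_filter, ← Finset.sum_mul]
  ring

theorem own_neg {V : Type} {b : ℕ} (a : V → ℝ) (c : Finset V) (g : V → Fin b)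
    (k : Fin b) :
    ∑ v ∈ c, (-a v) * ((if g v = k then 1 else 0) - 1 / (b : ℝ)) =
      - ∑ v ∈ c, (a v) * ((if g v = k then 1 else 0) - 1 / (b : ℝ)) := by
  rw [← Finset.sum_neg_distrib]
  exact Finset.sum_congr rfl (fun v _ => by ring)

/-- masses from squares -/
theorem own_mass {b : ℕ} (s : Fin b → ℝ) (S L w B : ℝ) (hL : 1 ≤ L) (hw : 0 < w)
    (hB : 12 * L ^ 2 < B) (hS : ∑ k, s k = S) (hSb : |S| ≤ L * (w * B))
    (hk : ∀ k, |s k| ≤ L * w) (hq : 95 / 192 * (w * B) ^ 2 ≤ ∑ k, s k ^ 2) :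
    L * (w * B) < ∑ k, max (s k) 0 := by
  have h1 : ∑ k, s k ^ 2 ≤ L * w * ∑ k, |s k| := by
    rw [Finset.mul_sum]
    refine Finset.sum_le_sum (fun k _ => ?_)
    have := hk k
    have h0 := abs_nonneg (s k)
    calc s k ^ 2 = |s k| * |s k| := by rw [← sq_abs]; ring
      _ ≤ (L * w) * |s k| := by gcongr
  have h2 : ∀ k, max (s k) 0 = (|s k| + s k) / 2 := by
    intro k
    rcases le_total 0 (s k) with h | h
    · rw [max_eq_left h, abs_of_nonneg h]; ring
    · rw [max_eq_right h, abs_of_nonpos h]; ring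
  have h3 : ∑ k, max (s k) 0 = (∑ k, |s k| + S) / 2 := by
    rw [← hS, ← Finset.sum_add_distrib, Finset.sum_div]
    exact Finset.sum_congr rfl (fun k _ => h2 k)
  rw [h3]
  have h4 : -(L * (w * B)) ≤ S := (abs_le.mp hSb).1
  have hLw : 0 < L * w := by positivity
  have hB0 : 0 < B := by nlinarith
  -- the sum of the absolute values is large
  have h5 : 95 / 192 * w * B ^ 2 ≤ L * ∑ k, |s k| := by
    have h6 : w * (95 / 192 * w * B ^ 2) ≤ w * (L * ∑ k, |s k|) := by
      calc w * (95 / 192 * w * B ^ 2) = 95 / 192 * (w * B) ^ 2 := by ring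
        _ ≤ _ := hq
        _ ≤ _ := h1
        _ = _ := by ring
    exact le_of_mul_le_mul_left h6 hw
  have h7 : 3 * L * (w * B) < ∑ k, |s k| := by
    have h8 : L * (3 * L * (w * B)) < L * ∑ k, |s k| := by
      calc L * (3 * L * (w * B)) = 3 * L ^ 2 * (w * B) := by ring
        _ < 95 / 192 * B * (w * B) := by
          have : 3 * L ^ 2 < 95 / 192 * B := by nlinarith
          have hwB : 0 < w * B := by positivity
          exact mul_lt_mul_of_pos_right this hwB
        _ = 95 / 192 * w * B ^ 2 := by ring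
        _ ≤ _ := h5
    exact lt_of_mul_lt_mul_left h8 (by linarith)
  nlinarith

theorem own_thm (hBRN : BRNStmt) (hCHB : CHBStmt) : OWNStmt := by
  intro V _ _ χ hχ lam β r hP w hw c hc
  classical
  -- real parameters
  have hL : (1 : ℝ) ≤ lam := by exact_mod_cast hP.lam_pos
  have hB12 : 12 * (lam : ℝ) ^ 2 < β := by exact_mod_cast hP.big
  have hβ13 : 13 ≤ β := by
    have h1 := hP.lam_pos
    have h2 := hP.big
    have h3 : 1 ≤ lam ^ 2 := Nat.one_le_pow _ _ h1
    omega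
  have hB13 : (13 : ℝ) ≤ β := by exact_mod_cast hβ13
  have hw0 : 0 < w := by linarith
  have hb6 : 6 ≤ β ^ 2 := by nlinarith
  have hbR : ((β ^ 2 : ℕ) : ℝ) = (β : ℝ) ^ 2 := by push_cast; ring
  have hb0 : (0 : ℝ) < (β : ℝ) ^ 2 := by positivity
  obtain ⟨hN, hs⟩ := hc
  set N : ℝ := (c.card : ℝ) with hNdef
  set S : ℝ := ((cs χ c : ℤ) : ℝ) with hSdef
  set L : ℝ := (lam : ℝ) with hLdef
  set B : ℝ := (β : ℝ) with hBdef
  have hwB : 0 < w * B := by positivity
  obtain ⟨hN1, hN2⟩ := abs_le.mp hN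
  obtain ⟨hs1, hs2⟩ := abs_le.mp hs
  -- bounds for N
  have hLW : 96 * L ≤ w * B := by nlinarith [mul_pos hw0 (by positivity : (0:ℝ) < B)]
  have hNup : N ≤ 97 / 96 * (w * B) ^ 2 := by nlinarith
  have hNlo : 95 / 96 * (w * B) ^ 2 ≤ N := by nlinarith
  have hNb : N / B ^ 2 ≤ 97 / 96 * w ^ 2 := by
    rw [div_le_iff₀ hb0]
    calc N ≤ 97 / 96 * (w * B) ^ 2 := hNup
      _ = 97 / 96 * w ^ 2 * B ^ 2 := by ring
  have hdN : |N / B ^ 2 - w ^ 2| ≤ L * w / B := by
    have e : N / B ^ 2 - w ^ 2 = (N - (w * B) ^ 2) / B ^ 2 := by field_simp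
    rw [e, abs_div, abs_of_pos hb0, div_le_div_iff₀ hb0 (by positivity)]
    calc |N - (w * B) ^ 2| * B ≤ (L * (w * B)) * B := by gcongr
      _ = L * w * B ^ 2 := by ring
  have hdS : |S / B ^ 2| ≤ L * w / B := by
    rw [abs_div, abs_of_pos hb0, div_le_div_iff₀ hb0 (by positivity)]
    calc |S| * B ≤ (L * (w * B)) * B := by gcongr
      _ = L * w * B ^ 2 := by ring
  have hsm : L * w / B ≤ L * w / 12 := by gcongr; linarith
  set τ : ℝ := L * w / 2 with hτ
  have hLw : 0 < L * w := by positivity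
  -- the events
  set T : ℝ := (Fintype.card (V → Fin (β ^ 2)) : ℝ) with hT
  have hT0 : 0 ≤ T := by positivity
  let E : Fin (β ^ 2) → (V → ℝ) → Finset (V → Fin (β ^ 2)) := fun k a =>
    univ.filter (fun g => τ ≤ ∑ v ∈ c, a v * ((if g v = k then 1 else 0) - 1 / ((β ^ 2 : ℕ) : ℝ)))
  have hE : ∀ (k : Fin (β ^ 2)) (a : V → ℝ), (∀ v, |a v| ≤ 1) →
      ((E k a).card : ℝ) ≤ Real.exp (-(L ^ 2 / 32)) * T := by
    intro k a ha
    have hθ1 : 0 ≤ L / (4 * w) := by positivity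
    have hθ2 : L / (4 * w) ≤ 1 := by
      rw [div_le_one (by positivity)]; linarith
    have := hBRN V (β ^ 2) (by omega) c a ha k (L / (4 * w)) τ hθ1 hθ2
    refine this.trans ?_
    refine mul_le_mul_of_nonneg_right (Real.exp_le_exp.mpr ?_) hT0
    rw [hbR]
    have e1 : (L / (4 * w)) ^ 2 * (c.card : ℝ) / B ^ 2 = L ^ 2 / (16 * w ^ 2) * (N / B ^ 2) := by
      rw [hNdef]; field_simp; ring
    have e2 : L / (4 * w) * τ = L ^ 2 / 8 := by rw [hτ]; field_simp; ring
    rw [e1, e2]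
    have e3 : L ^ 2 / (16 * w ^ 2) * (N / B ^ 2) ≤ L ^ 2 / (16 * w ^ 2) * (97 / 96 * w ^ 2) := by
      gcongr
    have e4 : L ^ 2 / (16 * w ^ 2) * (97 / 96 * w ^ 2) = 97 / 1536 * L ^ 2 := by
      field_simp; ring
    rw [e4] at e3
    nlinarith [sq_nonneg L]
  let E0 : Finset (V → Fin (β ^ 2)) := univ.filter (fun g =>
      ∑ k, ((cs χ (part c g k) : ℤ) : ℝ) ^ 2 < (c.card : ℝ) / 2)
  have hE0 : (E0.card : ℝ) ≤ 1 / 8 * T := by
    have := hCHB V (β ^ 2) hb6 χ hχ c
    refine this.trans ?_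
    refine mul_le_mul_of_nonneg_right ?_ hT0
    rw [hbR, div_le_div_iff₀ hb0 (by norm_num)]
    nlinarith
  let Ek : Fin (β ^ 2) → Finset (V → Fin (β ^ 2)) := fun k =>
    (E k (fun _ => 1) ∪ E k (fun _ => -1)) ∪ (E k (fun v => (χ v : ℝ)) ∪
      E k (fun v => -(χ v : ℝ)))
  have hχa : ∀ v, |(χ v : ℝ)| ≤ 1 := by
    intro v
    rcases hχ v with h | h <;> simp [h]
  have hEk : ∀ k, ((Ek k).card : ℝ) ≤ 4 * (Real.exp (-(L ^ 2 / 32)) * T) := by
    intro k
    have a1 := hE k (fun _ => 1) (by simp)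
    have a2 := hE k (fun _ => -1) (by simp)
    have a3 := hE k (fun v => (χ v : ℝ)) hχa
    have a4 := hE k (fun v => -(χ v : ℝ)) (by intro v; rw [abs_neg]; exact hχa v)
    have b1 : (Ek k).card ≤ ((E k (fun _ => 1)).card + (E k (fun _ => -1)).card) +
        ((E k (fun v => (χ v : ℝ))).card + (E k (fun v => -(χ v : ℝ))).card) :=
      (Finset.card_union_le _ _).trans
        (Nat.add_le_add (Finset.card_union_le _ _) (Finset.card_union_le _ _))
    have b2 : ((Ek k).card : ℝ) ≤ (((E k (fun _ => 1)).card : ℝ) +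
        ((E k (fun _ => -1)).card : ℝ)) + (((E k (fun v => (χ v : ℝ))).card : ℝ) +
          ((E k (fun v => -(χ v : ℝ))).card : ℝ)) := by exact_mod_cast b1
    linarith
  have hU : ((univ.biUnion Ek).card : ℝ) ≤ 1 / 8 * T := by
    have c1 : (univ.biUnion Ek).card ≤ ∑ k, (Ek k).card := Finset.card_biUnion_le
    have c2 : ((univ.biUnion Ek).card : ℝ) ≤ ∑ k, ((Ek k).card : ℝ) := by exact_mod_cast c1
    have c3 : ∑ k, ((Ek k).card : ℝ) ≤ ∑ _k : Fin (β ^ 2), 4 * (Real.exp (-(L ^ 2 / 32)) * T) :=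
      Finset.sum_le_sum (fun k _ => hEk k)
    rw [Finset.sum_const, Finset.card_univ, Fintype.card_fin, nsmul_eq_mul, hbR] at c3
    have c4 := hP.tail
    have c5 : B ^ 2 * (4 * (Real.exp (-(L ^ 2 / 32)) * T)) =
        1 / 8 * ((32 * B ^ 2 * Real.exp (-(L ^ 2 / 32))) * T) := by ring
    rw [c5] at c3
    have c6 : (32 * B ^ 2 * Real.exp (-(L ^ 2 / 32))) * T ≤ 1 * T :=
      mul_le_mul_of_nonneg_right c4 hT0
    linarith
  -- inclusion
  have hincl : (univ.filter (fun g : V → Fin (β ^ 2) => ¬ (Mass χ c g (L * (w * B)) ∧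
      ∀ k, Rng χ lam w (part c g k)))) ⊆ E0 ∪ univ.biUnion Ek := by
    intro g hg
    rw [Finset.mem_filter] at hg
    by_contra hno
    apply hg.2
    rw [Finset.mem_union, not_or] at hno
    obtain ⟨h0, h1⟩ := hno
    have h0' : (c.card : ℝ) / 2 ≤ ∑ k, ((cs χ (part c g k) : ℤ) : ℝ) ^ 2 := by
      by_contra hcon
      exact h0 (Finset.mem_filter.mpr ⟨Finset.mem_univ _, not_le.mp hcon⟩)
    have h1' : ∀ k, g ∉ Ek k := by
      intro k hk
      exact h1 (Finset.mem_biUnion.mpr ⟨k, Finset.mem_univ _, hk⟩)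
    have hsum : ∀ k (a : V → ℝ), g ∉ E k a →
        ∑ v ∈ c, a v * ((if g v = k then 1 else 0) - 1 / ((β ^ 2 : ℕ) : ℝ)) < τ := by
      intro k a hk
      by_contra hcon
      exact hk (Finset.mem_filter.mpr ⟨Finset.mem_univ _, not_lt.mp hcon⟩)
    have hR : ∀ k, Rng χ lam w (part c g k) := by
      intro k
      have hk := h1' k
      simp only [Ek, Finset.mem_union, not_or] at hk
      obtain ⟨⟨k1, k2⟩, k3, k4⟩ := hk
      have m1 := hsum k _ k1
      have m2 := hsum k _ k2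
      have m3 := hsum k _ k3
      have m4 := hsum k _ k4
      rw [own_neg (fun _ => 1)] at m2
      rw [own_neg (fun v => (χ v : ℝ))] at m4
      rw [own_card, hbR] at m1 m2
      rw [own_cs, hbR] at m3 m4
      obtain ⟨d1, d2⟩ := abs_le.mp hdN
      obtain ⟨d3, d4⟩ := abs_le.mp hdS
      constructor
      · rw [abs_le]
        constructor <;> linarith
      · rw [abs_le]
        constructor <;> linarith
    refine ⟨?_, hR⟩
    have hSsum : ∑ k, ((cs χ (part c g k) : ℤ) : ℝ) = S := by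
      rw [hSdef, ← Int.cast_sum]
      congr 1
      unfold cs part
      exact Finset.sum_fiberwise c g χ
    have hq : 95 / 192 * (w * B) ^ 2 ≤ ∑ k, ((cs χ (part c g k) : ℤ) : ℝ) ^ 2 := by
      have : 95 / 192 * (w * B) ^ 2 ≤ N / 2 := by linarith
      exact this.trans h0'
    constructor
    · exact own_mass (fun k => ((cs χ (part c g k) : ℤ) : ℝ)) S L w B hL hw0 hB12 hSsum hs
        (fun k => (hR k).2) hq
    · refine own_mass (fun k => -((cs χ (part c g k) : ℤ) : ℝ)) (-S) L w B hL hw0 hB12 ?_ ?_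
        (fun k => ?_) ?_
      · rw [Finset.sum_neg_distrib, hSsum]
      · rw [abs_neg]; exact hs
      · rw [abs_neg]; exact (hR k).2
      · simpa using hq
  rw [Nat.card_eq_fintype_card, Fintype.card_subtype]
  have f1 : (univ.filter (fun g : V → Fin (β ^ 2) => ¬ (Mass χ c g (L * (w * B)) ∧
      ∀ k, Rng χ lam w (part c g k)))).card ≤ E0.card + (univ.biUnion Ek).card :=
    (Finset.card_le_card hincl).trans (Finset.card_union_le _ _)
  have f2 : ((univ.filter (fun g : V → Fin (β ^ 2) => ¬ (Mass χ c g (L * (w * B)) ∧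
      ∀ k, Rng χ lam w (part c g k)))).card : ℝ) ≤ (E0.card : ℝ) +
        ((univ.biUnion Ek).card : ℝ) := by exact_mod_cast f1
  refine f2.trans ?_
  linarith

end Pool.Agent.H5.FR
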