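import Pool.Agent.H5.FR.Stmts

/-!
# Project FRK, module SEG: the chain for two consecutive blocks
-/

set_option autoImplicit false
set_option linter.unusedSectionVars false

namespace Pool.Agent.H5.FR

open Finset

section basic

variable {V : Type} [Fintype V] [DecidableEq V] {b r : ℕ} {χ : V → ℤ}

theorem Reach.mono {F G : Finset (Finset V)} (hFG : F ⊆ G) {X Y : Finset V}
    (h : Reach χ F X Y) : Reach χ G X Y := by
  induction h with
  | refl h => exact Reach.refl (hFG h)
  | step _ hx hy cx cy hF ih => exact Reach.step ih hx hy cx cy (hFG hF)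

theorem Reach.trans {F : Finset (Finset V)} {X Y Z : Finset V} (h1 : Reach χ F X Y)
    (h2 : Reach χ F Y Z) : Reach χ F X Z := by
  induction h2 with
  | refl _ => exact h1
  | step _ hx hy cx cy hF ih => exact Reach.step ih hx hy cx cy hF

theorem Reach.union {F G : Finset (Finset V)} {W X Y : Finset V} (h : Reach χ F X Y)
    (hd : Disjoint W Y) (hG : ∀ Z ∈ F, W ∪ Z ∈ G) : Reach χ G (W ∪ X) (W ∪ Y) := by
  induction h with
  | refl h => exact Reach.refl (hG _ h)
  | @step Y' x y h hx hy cx cy hF ih =>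
    have hxW : x ∉ W := fun hxw => (Finset.disjoint_left.1 hd hxw) (by simp)
    have hyW : y ∉ W := fun hyw => (Finset.disjoint_left.1 hd hyw) (by simp)
    have hd' : Disjoint W Y' := by
      refine Finset.disjoint_left.2 fun z hz hz' => (Finset.disjoint_left.1 hd hz) ?_
      simp [hz']
    have e : W ∪ insert x (insert y Y') = insert x (insert y (W ∪ Y')) := by
      ext z; simp only [Finset.mem_union, Finset.mem_insert]; tauto
    rw [e]
    refine Reach.step (ih hd') ?_ ?_ cx cy ?_
    · simp [hx, hxW]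
    · simp [hy, hyW]
    · rw [← e]; exact hG _ hF

theorem cs_union {c d : Finset V} (h : Disjoint c d) : cs χ (c ∪ d) = cs χ c + cs χ d := by
  simp only [cs]; exact Finset.sum_union h

theorem cs_biUnion {ι : Type} [DecidableEq ι] {S : Finset ι} {f : ι → Finset V}
    (h : (S : Set ι).PairwiseDisjoint f) : cs χ (S.biUnion f) = ∑ k ∈ S, cs χ (f k) := by
  simp only [cs]; exact Finset.sum_biUnion h

/-- chain in an interval of subsets -/
theorem reach_leaf (hχ : ∀ v, χ v = 1 ∨ χ v = -1) (G : Finset (Finset V)) (T : Finset V) :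
    ∀ (m : ℕ) (E : Finset V), E.card = m → Disjoint T E → cs χ E = 0 →
      (∀ Z, T ⊆ Z → Z ⊆ T ∪ E → Z ∈ G) → Reach χ G T (T ∪ E) := by
  intro m
  induction m using Nat.strong_induction_on with
  | _ m IH =>
    intro E hE hd hs hG
    rcases E.eq_empty_or_nonempty with rfl | hne
    · rw [Finset.union_empty]
      exact Reach.refl (hG T (Finset.Subset.refl _) Finset.subset_union_left)
    · have hx : ∃ x ∈ E, χ x = 1 := by
        by_contra hcon
        push Not at hcon
        have : cs χ E = - (E.card : ℤ) := by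
          simp only [cs]
          rw [Finset.sum_congr rfl (fun v hv => (hχ v).resolve_left (hcon v hv))]
          simp
        rw [this] at hs
        have h0 : E.card = 0 := by omega
        exact hne.ne_empty (Finset.card_eq_zero.1 h0)
      have hy : ∃ y ∈ E, χ y = -1 := by
        by_contra hcon
        push Not at hcon
        have : cs χ E = (E.card : ℤ) := by
          simp only [cs]
          rw [Finset.sum_congr rfl (fun v hv => (hχ v).resolve_right (hcon v hv))]
          simp
        rw [this] at hs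
        have h0 : E.card = 0 := by omega
        exact hne.ne_empty (Finset.card_eq_zero.1 h0)
      obtain ⟨x, hxE, cx⟩ := hx
      obtain ⟨y, hyE, cy⟩ := hy
      have hxy : x ≠ y := by
        rintro rfl; rw [cx] at cy; norm_num at cy
      have hyE' : y ∈ E.erase x := Finset.mem_erase.2 ⟨hxy.symm, hyE⟩
      set E' := (E.erase x).erase y with hE'
      have hxT : x ∉ T := fun h => Finset.disjoint_left.1 hd h hxE
      have hyT : y ∉ T := fun h => Finset.disjoint_left.1 hd h hyE
      have e0 : T ∪ E = insert x (insert y (T ∪ E')) := by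
        ext z
        simp only [hE', Finset.mem_union, Finset.mem_insert, Finset.mem_erase]
        constructor
        · rintro (h | h)
          · tauto
          · by_cases h1 : z = x
            · exact Or.inl h1
            · by_cases h2 : z = y
              · exact Or.inr (Or.inl h2)
              · exact Or.inr (Or.inr (Or.inr ⟨h2, h1, h⟩))
        · rintro (rfl | rfl | h | h)
          · exact Or.inr hxE
          · exact Or.inr hyE
          · exact Or.inl h
          · exact Or.inr h.2.2
      have hsub : E' ⊆ E := (Finset.erase_subset _ _).trans (Finset.erase_subset _ _)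
      have hcard : E'.card < m := by
        rw [hE', Finset.card_erase_of_mem hyE', Finset.card_erase_of_mem hxE, hE]
        have : 0 < m := by rw [← hE]; exact Finset.card_pos.2 hne
        have : 0 < (E.erase x).card := Finset.card_pos.2 ⟨y, hyE'⟩
        rw [Finset.card_erase_of_mem hxE, hE] at this
        omega
      have hs' : cs χ E' = 0 := by
        have h1 : cs χ E = χ x + cs χ (E.erase x) := by
          simp only [cs]; rw [Finset.add_sum_erase _ _ hxE]
        have h2 : cs χ (E.erase x) = χ y + cs χ E' := by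
          simp only [cs, hE']; rw [Finset.add_sum_erase _ _ hyE']
        rw [hs, h2, cx, cy] at h1
        omega
      have hd' : Disjoint T E' := Finset.disjoint_of_subset_right hsub hd
      have ih := IH E'.card hcard E' rfl hd' hs' (fun Z h1 h2 => hG Z h1
        (h2.trans (Finset.union_subset_union_right hsub)))
      rw [e0]
      refine Reach.step ih ?_ ?_ cx cy ?_
      · simp [hxT, hE']
      · simp [hyT, hE']
      · rw [← e0]
        exact hG _ Finset.subset_union_left (Finset.Subset.refl _)

theorem part_subset (c : Finset V) (g : V → Fin b) (k : Fin b) : part c g k ⊆ c :=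
  Finset.filter_subset _ _

theorem part_disjoint {c d : Finset V} {g : V → Fin b} {k l : Fin b} (h : k ≠ l) :
    Disjoint (part c g k) (part d g l) := by
  refine Finset.disjoint_left.2 fun z hz hz' => ?_
  simp only [part, Finset.mem_filter] at hz hz'
  exact h (hz.2.symm.trans hz'.2)

theorem sel_disjoint {h : ℕ} {A B : Blk V b r (h + 1)} (hAB : Disjoint A.1 B.1) (i j : Fin r)
    {s t : Bool × Fin b} (hst : s ≠ t) : Disjoint (sel A B i j s).1 (sel A B i j t).1 := by
  obtain ⟨s1, s2⟩ := s
  obtain ⟨t1, t2⟩ := t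
  cases s1 <;> cases t1
  · have hne : s2 ≠ t2 := fun h => hst (by rw [h])
    exact part_disjoint hne
  · exact Finset.disjoint_of_subset_left (part_subset _ _ _)
      (Finset.disjoint_of_subset_right (part_subset _ _ _) hAB)
  · exact Finset.disjoint_of_subset_left (part_subset _ _ _)
      (Finset.disjoint_of_subset_right (part_subset _ _ _) hAB.symm)
  · have hne : s2 ≠ t2 := fun h => hst (by rw [h])
    exact part_disjoint hne

theorem biUnion_sel_disjoint {h : ℕ} {A B : Blk V b r (h + 1)} (hAB : Disjoint A.1 B.1)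
    (i j : Fin r) {S : Finset (Bool × Fin b)} {t : Bool × Fin b} (ht : t ∉ S) :
    Disjoint (S.biUnion (fun s => (sel A B i j s).1)) (sel A B i j t).1 := by
  rw [Finset.disjoint_biUnion_left]
  intro s hs
  exact sel_disjoint hAB i j (fun h => ht (h ▸ hs))

theorem mem_Fam_succ {M h : ℕ} {A B : Blk V b r (h + 1)} (i j : Fin r)
    (S : Finset (Bool × Fin b)) (p q : Bool × Fin b) {Z : Finset V}
    (hZ : Z ∈ Fam M h (sel A B i j p) (sel A B i j q)) :
    S.biUnion (fun s => (sel A B i j s).1) ∪ Z ∈ Fam M (h + 1) A B := by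
  unfold Fam
  exact Finset.mem_biUnion.2 ⟨(i, j, S, p, q), Finset.mem_univ _, Finset.mem_image.2 ⟨Z, hZ, rfl⟩⟩

end basic

section seg

variable {V : Type} [Fintype V] [DecidableEq V] {χ : V → ℤ}

/-- the target condition -/
def Tgt (χ : V → ℤ) (lam β : ℕ) (u₀ : ℝ) {b r h : ℕ} (B : Blk V b r h) (D : ℤ) (T : Finset V) :
    Prop :=
  (Good χ lam β u₀ h B ∧ TS χ lam β u₀ h B D T) ∨ (B.1 = ∅ ∧ D = 0 ∧ T = ∅)

/-- the inductive hypothesis at height `h` -/
def SegAt (χ : V → ℤ) (lam β r : ℕ) (u₀ : ℝ) (M h : ℕ) : Prop :=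
  ∀ (A B : Blk V (β ^ 2) r h) (D : ℤ) (T T' : Finset V), Good χ lam β u₀ h A →
    TS χ lam β u₀ h A D T → Disjoint A.1 B.1 → Tgt χ lam β u₀ B (D + cs χ A.1) T' →
    Reach χ (Fam M h A B) T (A.1 ∪ T')

theorem path_aux (hTEX : TEXStmt) (hχ : ∀ v, χ v = 1 ∨ χ v = -1) {lam β r : ℕ}
    (hP : PH lam β r) {u₀ : ℝ} (hu : 8 * (lam : ℝ) ≤ u₀) {M h : ℕ}
    (IH : SegAt χ lam β r u₀ M h) {A B : Blk V (β ^ 2) r (h + 1)} (hAB : Disjoint A.1 B.1)
    (i j : Fin r) :
    ∀ (L : List (Bool × Fin (β ^ 2))) (S : Finset (Bool × Fin (β ^ 2)))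
      (p q : Bool × Fin (β ^ 2)) (D Dq : ℤ) (T T' : Finset V),
      (p :: L).Nodup → (∀ t ∈ p :: L, t ∉ S) → q ∉ S → q ∉ p :: L →
      (∀ t ∈ p :: L, Good χ lam β u₀ h (sel A B i j t)) →
      TS χ lam β u₀ h (sel A B i j p) D T →
      PB (fun t => cs χ (sel A B i j t).1) (lam * (u₀ * (β : ℝ) ^ h))
        (D + cs χ (sel A B i j p).1) L →
      Dq = D + cs χ (sel A B i j p).1 + (L.map (fun t => cs χ (sel A B i j t).1)).sum →
      Tgt χ lam β u₀ (sel A B i j q) Dq T' →
      Reach χ (Fam M (h + 1) A B) (S.biUnion (fun s => (sel A B i j s).1) ∪ T)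
        ((S ∪ insert p L.toFinset).biUnion (fun s => (sel A B i j s).1) ∪ T') := by
  intro L
  induction L with
  | nil =>
    intro S p q D Dq T T' hnd hS hqS hqp hgood hT hPB hDq hTgt
    have hpS : p ∉ S := hS p (by simp)
    have hpq : p ≠ q := fun h => hqp (by simp [h])
    simp only [List.map_nil, List.sum_nil, add_zero] at hDq
    subst hDq
    have r1 := IH _ _ D T T' (hgood p (by simp)) hT (sel_disjoint hAB i j hpq) hTgt
    have hT'q : T' ⊆ (sel A B i j q).1 := by
      rcases hTgt with ⟨_, h2⟩ | ⟨_, _, h3⟩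
      · exact ((hTEX V χ hχ lam β r hP u₀ hu h _).1 _ _ h2).1
      · rw [h3]; exact Finset.empty_subset _
    have r2 := r1.union (W := S.biUnion (fun s => (sel A B i j s).1))
      (G := Fam M (h + 1) A B) (by
        rw [Finset.disjoint_union_right]
        exact ⟨biUnion_sel_disjoint hAB i j hpS,
          Finset.disjoint_of_subset_right hT'q (biUnion_sel_disjoint hAB i j hqS)⟩)
      (fun Z hZ => mem_Fam_succ i j S p q hZ)
    have e : (S ∪ insert p ([] : List (Bool × Fin (β ^ 2))).toFinset).biUnion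
        (fun s => (sel A B i j s).1) ∪ T' =
        S.biUnion (fun s => (sel A B i j s).1) ∪ ((sel A B i j p).1 ∪ T') := by
      rw [Finset.union_biUnion]
      simp [Finset.union_assoc]
    rw [e]; exact r2
  | cons f L ih =>
    intro S p q D Dq T T' hnd hS hqS hqp hgood hT hPB hDq hTgt
    have hpS : p ∉ S := hS p (by simp)
    have hfS : f ∉ S := hS f (by simp)
    have hpf : p ≠ f := by
      intro h
      rw [List.nodup_cons] at hnd
      exact hnd.1 (by simp [h])
    obtain ⟨hb, hPB'⟩ := hPB
    obtain ⟨Tf, hTf⟩ := (hTEX V χ hχ lam β r hP u₀ hu h _).2.2 (hgood f (by simp)) _ hb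
    have hTfsub : Tf ⊆ (sel A B i j f).1 :=
      ((hTEX V χ hχ lam β r hP u₀ hu h _).1 _ _ hTf).1
    have r1 := IH _ _ D T Tf (hgood p (by simp)) hT (sel_disjoint hAB i j hpf)
      (Or.inl ⟨hgood f (by simp), hTf⟩)
    have r2 := r1.union (W := S.biUnion (fun s => (sel A B i j s).1))
      (G := Fam M (h + 1) A B) (by
        rw [Finset.disjoint_union_right]
        exact ⟨biUnion_sel_disjoint hAB i j hpS,
          Finset.disjoint_of_subset_right hTfsub (biUnion_sel_disjoint hAB i j hfS)⟩)
      (fun Z hZ => mem_Fam_succ i j S p f hZ)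
    have r3 := ih (insert p S) f q (D + cs χ (sel A B i j p).1) Dq Tf T'
      (List.nodup_cons.1 hnd).2
      (by
        intro t ht
        rw [Finset.mem_insert, not_or]
        refine ⟨?_, hS t (List.mem_cons_of_mem _ ht)⟩
        rintro rfl
        exact (List.nodup_cons.1 hnd).1 ht)
      (by
        rw [Finset.mem_insert, not_or]
        exact ⟨fun h => hqp (by simp [h]), hqS⟩)
      (fun h => hqp (List.mem_cons_of_mem _ h))
      (fun t ht => hgood t (List.mem_cons_of_mem _ ht))
      hTf hPB'
      (by rw [hDq, List.map_cons, List.sum_cons]; ring)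
      hTgt
    have e1 : S.biUnion (fun s => (sel A B i j s).1) ∪ ((sel A B i j p).1 ∪ Tf) =
        (insert p S).biUnion (fun s => (sel A B i j s).1) ∪ Tf := by
      rw [Finset.biUnion_insert]
      ext z
      simp only [Finset.mem_union]
      tauto
    have e2 : (insert p S ∪ insert f L.toFinset) = (S ∪ insert p (f :: L).toFinset) := by
      rw [List.toFinset_cons]
      ext z
      simp only [Finset.mem_union, Finset.mem_insert]
      tauto
    rw [e1] at r2
    rw [e2] at r3
    exact r2.trans r3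

theorem node_core (hORD : ORDStmt) (hTEX : TEXStmt) (hχ : ∀ v, χ v = 1 ∨ χ v = -1)
    {lam β r : ℕ} (hP : PH lam β r) {u₀ : ℝ} (hu : 8 * (lam : ℝ) ≤ u₀) {M h : ℕ}
    (IH : SegAt χ lam β r u₀ M h) {A B : Blk V (β ^ 2) r (h + 1)} (hAB : Disjoint A.1 B.1)
    (i j : Fin r) (S : Finset (Fin (β ^ 2))) (e : Fin (β ^ 2)) (Te : Finset V) (D : ℤ)
    (heS : e ∉ S) (hgA : ∀ k, Good χ lam β u₀ h (sub A i k))
    (hTe : TS χ lam β u₀ h (sub A i e) (D + cs χ (un A i S)) Te)
    (hb : |((D + cs χ (un A i S) + cs χ (sub A i e).1 : ℤ) : ℝ)| ≤ lam * (u₀ * (β : ℝ) ^ h))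
    (S' : Finset (Fin (β ^ 2))) (q : Fin (β ^ 2)) (Tq : Finset V) (hqS' : q ∉ S')
    (hgB : ∀ k ∈ S', Good χ lam β u₀ h (sub B j k))
    (hb' : |((D + cs χ A.1 + cs χ (un B j S') : ℤ) : ℝ)| ≤ lam * (u₀ * (β : ℝ) ^ h))
    (hTgt : Tgt χ lam β u₀ (sub B j q) (D + cs χ A.1 + cs χ (un B j S')) Tq) :
    Reach χ (Fam M (h + 1) A B) (un A i S ∪ Te) (A.1 ∪ (un B j S' ∪ Tq)) := by
  set R : Finset (Fin (β ^ 2)) := (univ \ S).erase e with hR
  set F : Finset (Bool × Fin (β ^ 2)) := R.image (fun k => (false, k)) ∪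
    S'.image (fun k => (true, k)) with hF
  have hdA : ∀ (Q : Finset (Fin (β ^ 2))), (Q : Set (Fin (β ^ 2))).PairwiseDisjoint
      (fun k => (sub A i k).1) := fun Q k _ l _ hkl => part_disjoint hkl
  have hdB : ∀ (Q : Finset (Fin (β ^ 2))), (Q : Set (Fin (β ^ 2))).PairwiseDisjoint
      (fun k => (sub B j k).1) := fun Q k _ l _ hkl => part_disjoint hkl
  have csA : cs χ A.1 = ∑ k, cs χ (sub A i k).1 := by
    rw [← cs_biUnion (hdA univ)]
    congr 1
    ext z
    simp only [Finset.mem_biUnion, sub, part, Finset.mem_filter, Finset.mem_univ, true_and,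
      exists_eq_right']
  have csS : cs χ (un A i S) = ∑ k ∈ S, cs χ (sub A i k).1 := cs_biUnion (hdA S)
  have csS' : cs χ (un B j S') = ∑ k ∈ S', cs χ (sub B j k).1 := cs_biUnion (hdB S')
  have hsplit : ∑ k, cs χ (sub A i k).1 = ∑ k ∈ S, cs χ (sub A i k).1 + cs χ (sub A i e).1 +
      ∑ k ∈ R, cs χ (sub A i k).1 := by
    have he : e ∈ univ \ S := by simp [heS]
    have h1 := Finset.add_sum_erase (univ \ S) (fun k => cs χ (sub A i k).1) he
    have h2 := Finset.sum_sdiff (f := fun k => cs χ (sub A i k).1) (Finset.subset_univ S)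
    rw [hR]
    linarith
  have sumF : ∑ t ∈ F, cs χ (sel A B i j t).1 = ∑ k ∈ R, cs χ (sub A i k).1 +
      ∑ k ∈ S', cs χ (sub B j k).1 := by
    rw [hF, Finset.sum_union]
    · rw [Finset.sum_image (by intro a _ b _ h; simpa using h),
        Finset.sum_image (by intro a _ b _ h; simpa using h)]
      rfl
    · refine Finset.disjoint_left.2 fun z hz hz' => ?_
      simp only [Finset.mem_image] at hz hz'
      obtain ⟨a, _, rfl⟩ := hz
      obtain ⟨b, _, hb⟩ := hz'
      simp at hb
  have hgood : ∀ t ∈ F, Good χ lam β u₀ h (sel A B i j t) := by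
    intro t ht
    rw [hF, Finset.mem_union] at ht
    rcases ht with ht | ht
    · obtain ⟨k, _, rfl⟩ := Finset.mem_image.1 ht
      exact hgA k
    · obtain ⟨k, hk, rfl⟩ := Finset.mem_image.1 ht
      exact hgB k hk
  have hRng : ∀ (X : Blk V (β ^ 2) r h), Good χ lam β u₀ h X →
      |((cs χ X.1 : ℤ) : ℝ)| ≤ lam * (u₀ * (β : ℝ) ^ h) := by
    intro X hX
    cases h with
    | zero => simpa using hX.2
    | succ h => exact hX.1.2
  obtain ⟨L, hL1, hL2, hL3⟩ := hORD _ F (fun t => cs χ (sel A B i j t).1)
    (lam * (u₀ * (β : ℝ) ^ h)) (D + cs χ (un A i S) + cs χ (sub A i e).1)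
    (fun f hf => hRng _ (hgood f hf)) hb (by
      have e0 : D + cs χ (un A i S) + cs χ (sub A i e).1 + ∑ f ∈ F, cs χ (sel A B i j f).1 =
          D + cs χ A.1 + cs χ (un B j S') := by
        rw [sumF, csA, hsplit, csS, csS']; ring
      rw [e0]; exact hb')
  have hLF : ∀ t, t ∈ L ↔ t ∈ F := by
    intro t; rw [← hL2, List.mem_toFinset]
  have hmF : ∀ t, t ∈ F ↔ (t.1 = false ∧ t.2 ∈ R) ∨ (t.1 = true ∧ t.2 ∈ S') := by
    intro t
    obtain ⟨t1, t2⟩ := t
    rw [hF, Finset.mem_union, Finset.mem_image, Finset.mem_image]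
    constructor
    · rintro (⟨k, hk, h⟩ | ⟨k, hk, h⟩)
      · simp only [Prod.mk.injEq] at h
        exact Or.inl ⟨h.1.symm, h.2 ▸ hk⟩
      · simp only [Prod.mk.injEq] at h
        exact Or.inr ⟨h.1.symm, h.2 ▸ hk⟩
    · rintro (⟨h1, h2⟩ | ⟨h1, h2⟩)
      · exact Or.inl ⟨t2, h2, by simp only at h1; rw [h1]⟩
      · exact Or.inr ⟨t2, h2, by simp only at h1; rw [h1]⟩
  have main := path_aux hTEX hχ hP hu IH hAB i j L (S.image (fun k => (false, k))) (false, e)
    (true, q) (D + cs χ (un A i S)) (D + cs χ A.1 + cs χ (un B j S')) Te Tq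
    (by
      rw [List.nodup_cons]
      refine ⟨?_, hL1⟩
      rw [hLF, hmF]
      simp [hR])
    (by
      intro t ht
      rw [Finset.mem_image]
      rintro ⟨k, hk, rfl⟩
      rcases List.mem_cons.1 ht with h | h
      · simp only [Prod.mk.injEq, true_and] at h
        exact heS (h ▸ hk)
      · rw [hLF, hmF] at h
        simp [hR, hk] at h)
    (by simp)
    (by
      rw [List.mem_cons, not_or]
      refine ⟨by simp, ?_⟩
      rw [hLF, hmF]
      simp [hqS'])
    (by
      intro t ht
      rcases List.mem_cons.1 ht with h | h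
      · rw [h]; exact hgA e
      · exact hgood t ((hLF t).1 h))
    hTe hL3
    (by
      have e1 : (L.map (fun t => cs χ (sel A B i j t).1)).sum =
          ∑ t ∈ F, cs χ (sel A B i j t).1 := by
        rw [← hL2, List.sum_toFinset _ hL1]
      rw [e1, sumF, csA, hsplit, csS, csS']
      have e2 : (sel A B i j (false, e)).1 = (sub A i e).1 := rfl
      rw [e2]; ring)
    hTgt
  have e1 : (S.image (fun k => (false, k))).biUnion (fun s => (sel A B i j s).1) = un A i S := by
    rw [Finset.image_biUnion]; rfl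
  have e2 : (S.image (fun k => (false, k)) ∪ insert (false, e) L.toFinset).biUnion
      (fun s => (sel A B i j s).1) ∪ Tq = A.1 ∪ (un B j S' ∪ Tq) := by
    rw [← Finset.union_assoc]
    congr 1
    ext z
    rw [hL2]
    simp only [Finset.mem_biUnion, Finset.mem_union, Finset.mem_insert, Finset.mem_image, un]
    constructor
    · rintro ⟨t, ht, hz⟩
      rcases ht with ⟨k, _, rfl⟩ | rfl | ht
      · exact Or.inl (part_subset _ _ _ hz)
      · exact Or.inl (part_subset _ _ _ hz)
      · rw [hmF] at ht
        obtain ⟨t1, t2⟩ := t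
        rcases ht with ⟨h1, h2⟩ | ⟨h1, h2⟩
        · simp only at h1
          subst h1
          exact Or.inl (part_subset _ _ _ hz)
        · simp only at h1
          subst h1
          exact Or.inr ⟨t2, h2, hz⟩
    · rintro (hz | ⟨k, hk, hz⟩)
      · set k := (A.2 i).1 z with hk
        have hzk : z ∈ (sel A B i j (false, k)).1 := by
          change z ∈ part A.1 (A.2 i).1 k
          simp only [part, Finset.mem_filter]
          exact ⟨hz, rfl⟩
        by_cases h1 : k ∈ S
        · exact ⟨(false, k), Or.inl ⟨k, h1, rfl⟩, hzk⟩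
        · by_cases h2 : k = e
          · exact ⟨(false, k), Or.inr (Or.inl (by rw [h2])), hzk⟩
          · refine ⟨(false, k), Or.inr (Or.inr ?_), hzk⟩
            rw [hmF]
            exact Or.inl ⟨rfl, by simp [hR, h1, h2]⟩
      · refine ⟨(true, k), Or.inr (Or.inr ?_), hz⟩
        rw [hmF]
        exact Or.inr ⟨rfl, hk⟩
  rw [e1, e2] at main
  exact main

theorem seg_thm (hORD : ORDStmt) (hTEX : TEXStmt) : SEGStmt := by
  intro V _ _ χ hχ lam β r hP u₀ hu M hM h
  have main : ∀ h, SegAt χ lam β r u₀ M h := by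
    intro h
    induction h with
    | zero =>
      intro A B D T T' hA hT hd hTgt
      obtain ⟨hTA, hTs⟩ := hT
      have hT' : T' ⊆ B.1 ∧ cs χ T' = -(D + cs χ A.1) := by
        rcases hTgt with ⟨_, h2⟩ | ⟨_, h2, h3⟩
        · exact h2
        · rw [h3, h2]; exact ⟨Finset.empty_subset _, by simp [cs]⟩
      have hu0 : (0 : ℝ) ≤ u₀ := le_trans (by positivity) hu
      have hcA : A.1.card ≤ M := by
        have h1 : |(A.1.card : ℝ) - u₀ ^ 2| ≤ lam * u₀ := hA.1
        have h2 := (abs_le.1 h1).2
        have : (A.1.card : ℝ) ≤ M := by linarith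
        exact_mod_cast this
      have hcB : B.1.card ≤ M := by
        rcases hTgt with ⟨hB, _⟩ | ⟨h1, _, _⟩
        · have h1 : |(B.1.card : ℝ) - u₀ ^ 2| ≤ lam * u₀ := hB.1
          have h2 := (abs_le.1 h1).2
          have : (B.1.card : ℝ) ≤ M := by linarith
          exact_mod_cast this
        · rw [h1]; simp
      have hdTT' : Disjoint A.1 T' := Finset.disjoint_of_subset_right hT'.1 hd
      have e : A.1 ∪ T' = T ∪ ((A.1 \ T) ∪ T') := by
        rw [← Finset.union_assoc, Finset.union_sdiff_of_subset hTA]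
      rw [e]
      refine reach_leaf hχ _ T _ _ rfl ?_ ?_ ?_
      · rw [Finset.disjoint_union_right]
        exact ⟨Finset.disjoint_sdiff, Finset.disjoint_of_subset_left hTA hdTT'⟩
      · rw [cs_union (Finset.disjoint_of_subset_left Finset.sdiff_subset hdTT')]
        have h1 : cs χ A.1 = cs χ T + cs χ (A.1 \ T) := by
          rw [← cs_union Finset.disjoint_sdiff, Finset.union_sdiff_of_subset hTA]
        rw [hT'.2]
        rw [hTs] at h1
        omega
      · intro Z h1 h2
        have hZ : Z = (Z ∩ A.1) ∪ (Z ∩ B.1) := by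
          ext z
          simp only [Finset.mem_union, Finset.mem_inter]
          constructor
          · intro hz
            have hz' := h2 hz
            simp only [Finset.mem_union, Finset.mem_sdiff] at hz'
            rcases hz' with h | h | h
            · exact Or.inl ⟨hz, hTA h⟩
            · exact Or.inl ⟨hz, h.1⟩
            · exact Or.inr ⟨hz, hT'.1 h⟩
          · rintro (h | h) <;> exact h.1
        unfold Fam
        refine Finset.mem_image.2 ⟨(Z ∩ A.1, Z ∩ B.1), ?_, hZ.symm⟩
        rw [Finset.mem_product]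
        constructor
        · simp only [pw, hcA, if_true, Finset.mem_powerset]
          exact Finset.inter_subset_right
        · simp only [pw, hcB, if_true, Finset.mem_powerset]
          exact Finset.inter_subset_right
    | succ h ih =>
      intro A B D T T' hA hT hd hTgt
      obtain ⟨i, S, e, Te, heS, hgA, hTeq, hTe, hb1, hb2⟩ := hT
      rw [hTeq]
      have hu0 : (0 : ℝ) ≤ u₀ := le_trans (by positivity) hu
      rcases hTgt with ⟨hB, hT'⟩ | ⟨hB, hD, hT'⟩
      · obtain ⟨j, S', e', Te', heS', hgB, hTeq', hTe', hb1', hb2'⟩ := hT'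
        rw [hTeq']
        exact node_core hORD hTEX hχ hP hu ih hd i j S e Te D heS hgA hTe hb2 S' e' Te' heS'
          (fun k _ => hgB k) hb1' (Or.inl ⟨hgB e', hTe'⟩)
      · have hun : un B i ∅ = ∅ := by simp [un]
        have hcs : cs χ (∅ : Finset V) = 0 := by simp [cs]
        have := node_core hORD hTEX hχ hP hu ih hd i i S e Te D heS hgA hTe hb2 ∅ e ∅
          (by simp) (fun k hk => absurd hk (by simp)) (by
            rw [hun, hcs, hD]; simp; positivity)
          (Or.inr ⟨by
            change part B.1 _ _ = ∅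
            rw [hB]; simp [part], by rw [hun, hcs, hD]; rfl, rfl⟩)
        rw [hun] at this
        rw [hT']
        simpa using this
  intro A B D T T' h1 h2 h3 h4
  exact main h A B D T T' h1 h2 h3 h4

end seg

end Pool.Agent.H5.FR
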