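import Pool.Agent.H5.FR.Main
import Pool.Agent.H5.FR.SEG
import Pool.Agent.H5.FR.OWN
import Pool.Agent.H83.FR.ORD
import Pool.Agent.H83.FR.TEX
import Pool.Agent.H51.FR.CNT
import Pool.Agent.H51.FR.PAR
import Pool.Agent.H17.FR.CIR
import Pool.Agent.H17.FR.MLT
import Pool.Agent.H59.FR.ROO
import Pool.Agent.H31.FR.BRN
import Pool.Agent.H31.FR.CHB
import Pool.Agent.H87.FR.FAM
import Pool.Agent.H87.FR.POL
import Pool.Agent.H19.FR.REC

/-!
# Project FRK (MP_f18ce0_lc): the main theorem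
-/

set_option autoImplicit false

namespace Pool.Agent.H5.FR

open Finset Pool.Agent.H80

theorem main_thm : ∃ C : ℕ, ∀ (K : Type) [Field K] [Infinite K] (n : ℕ),
      ∃ (f : MvPolynomial (Fin (2 * n)) K) (D : Circuit K (Fin (2 * n))),
        D.WeaklySkew ∧ SynMult D ∧ D.Computes f ∧ D.size ≤ (n + 2) ^ C ∧
        (∀ i, f.degreeOf i ≤ 1) ∧
        ∀ Y : Finset (Fin (2 * n)), (pdm f Y).rank = 2 ^ min Y.card (2 * n - Y.card) :=
  main_of (fam_thm (roo_thm (rec_thm (own_thm brn_thm chb_thm))) (seg_thm ord_thm tex_thm) cnt_thm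
    tex_thm par_thm) pol_thm cir_thm mlt_thm

end Pool.Agent.H5.FR
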