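import Pool.Agent.H5.FR.ALL

/-!
# Project FRK: assembly of the main theorem from its parts
-/

set_option autoImplicit false

namespace Pool.Agent.H5.FR

open Finset Pool.Agent.H80

theorem main_of (hFAM : FAMStmt) (hPOL : POLStmt) (hCIR : CIRStmt) (hMLT : MLTStmt) :
    ∃ C : ℕ, ∀ (K : Type) [Field K] [Infinite K] (n : ℕ),
      ∃ (f : MvPolynomial (Fin (2 * n)) K) (D : Circuit K (Fin (2 * n))),
        D.WeaklySkew ∧ SynMult D ∧ D.Computes f ∧ D.size ≤ (n + 2) ^ C ∧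
        (∀ i, f.degreeOf i ≤ 1) ∧
        ∀ Y : Finset (Fin (2 * n)), (pdm f Y).rank = 2 ^ min Y.card (2 * n - Y.card) := by
  obtain ⟨C, hC⟩ := hFAM
  refine ⟨C + 8, ?_⟩
  intro K _ _ n
  obtain ⟨F, hF, hR⟩ := hC n
  obtain ⟨w, hw⟩ := hPOL K n F hR
  obtain ⟨D, h1, h2, h3, h4⟩ := hCIR K n F w
  refine ⟨PP F w n univ, D, h1, h2, h3, ?_, ?_, all_thm _ hw⟩
  · have hb : (1 : ℕ) ≤ (n + 2) ^ C := Nat.one_le_pow _ _ (by omega)
    have e1 : F.card + 1 ≤ 2 * (n + 2) ^ C := by omega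
    have e2 : (2 * n + 1) ^ 2 ≤ 4 * (n + 2) ^ 2 := by
      calc (2 * n + 1) ^ 2 ≤ (2 * (n + 2)) ^ 2 := Nat.pow_le_pow_left (by omega) 2
        _ = 4 * (n + 2) ^ 2 := by ring
    have e3 : (64 : ℕ) ≤ (n + 2) ^ 5 * 2 := by
      have : 2 ^ 5 ≤ (n + 2) ^ 5 := Nat.pow_le_pow_left (by omega) 5
      omega
    calc D.size ≤ 8 * (F.card + 1) * (2 * n + 1) ^ 2 := h4
      _ ≤ 8 * (2 * (n + 2) ^ C) * (4 * (n + 2) ^ 2) := by gcongr
      _ = 64 * ((n + 2) ^ C * (n + 2) ^ 2) := by ring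
      _ ≤ ((n + 2) ^ 5 * (n + 2) ^ 1) * ((n + 2) ^ C * (n + 2) ^ 2) := by
        gcongr
        calc 64 ≤ (n + 2) ^ 5 * 2 := e3
          _ ≤ (n + 2) ^ 5 * (n + 2) ^ 1 := by
            rw [pow_one]; exact Nat.mul_le_mul_left _ (by omega)
      _ = (n + 2) ^ (C + 8) := by ring
  · intro i
    have := hMLT K (Fin (2 * n)) F w n univ i
    simpa using this

end Pool.Agent.H5.FR
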