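import Pool.Agent.H80.Circuit

/-!
# Syntactically multilinear circuits and partial derivative matrices (MP_f18ce0_lc)

Arithmetic circuits, weakly skew circuits and their size are defined, following the problem file,
in `Pool.Agent.H80.Circuit`.
-/

set_option autoImplicit false

namespace Pool.Agent.H5.FullRankDefs

open Pool.Agent.H80

/-- A circuit is syntactically multilinear: for each multiplication gate `g` with predecessors `a`
and `b`, the sub-circuits feeding `a` and `b` have no variable in common. -/
def SyntacticallyMultilinear {K σ : Type} (D : Circuit K σ) : Prop :=
  ∀ g a b : D.V, D.gate g = Gate.mul a b → ∀ (i : σ) (s t : D.V), D.gate s = Gate.var i →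
    D.gate t = Gate.var i → D.Path s a → ¬ D.Path t b

/-- The partial derivative matrix of `f` for the partition of the variables into `Y` and its
complement. Rows: the sets `A` of variables in `Y`. Columns: the sets `B` of variables outside of
`Y`. Entry: the coefficient in `f` of the product of the variables in `A` and in `B`. -/
noncomputable def pdMatrix {K : Type} [CommRing K] {σ : Type} (f : MvPolynomial σ K)
    (Y : Finset σ) : Matrix (Finset {x // x ∈ Y}) (Finset {x // x ∉ Y}) K :=
  fun A B => f.coeff (∑ a ∈ A, Finsupp.single a.1 1 + ∑ b ∈ B, Finsupp.single b.1 1)

end Pool.Agent.H5.FullRankDefs
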